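import Pool.Agent.H15.FLX.Targets

/-!
MP_c62aed_lc, random CNFs, row CLS: the clauses of the statement are the clauses of the tuple.
-/

set_option autoImplicit false

namespace Pool.Agent.H15.FLX

open Finset
open Pool.Agent.H53.MC (Clause Falsified SatBy Line Circuit U Viol toC scope Ins cnt H1 Covers Ker
  Err InR Bad cf tau)

theorem pf_CLS : T_CLS := by
  classical
  intro n k M μ e
  have himg : ∀ j, univ.image (en e j) = (e j).1 := by
    intro j
    ext a
    simp only [mem_image, mem_univ, true_and]
    have := Finset.range_orderEmbOfFin (e j).1 (e j).2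
    rw [← mem_coe, ← this]
    rfl
  refine ⟨fun j => ((e j).1.orderEmbOfFin (e j).2).injective, himg, fun σ => ?_⟩
  have h1 : ∀ m : Fin (M * μ), cf (en e) (FG (en e) σ) m = clause e σ (idx m) := by
    intro m
    unfold cf toC clause
    rw [← himg, image_image]
    refine image_congr ?_
    intro i _
    show (en e (idx m).1 i, !(!(σ (idx m) (en e (idx m).1 i)))) = _
    rw [Bool.not_not]
    rfl
  refine ⟨h1, ?_⟩
  unfold cnf
  ext c
  constructor
  · rintro ⟨j, rfl⟩
    obtain ⟨m, hm⟩ := (finProdFinEquiv.symm : Fin (M * μ) ≃ _).surjective j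
    refine ⟨m, ?_⟩
    rw [h1 m]
    exact congrArg _ hm
  · rintro ⟨m, rfl⟩
    exact ⟨idx m, (h1 m).symm⟩

end Pool.Agent.H15.FLX
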