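import Pool.Agent.H15.FLX.Targets

/-!
MP_c62aed_lc, random CNFs, row RS: the number of the signs for which the formula contains `T`.
-/

set_option autoImplicit false

namespace Pool.Agent.H15.FLX

open Finset
open Pool.Agent.H53.MC (Clause Falsified SatBy Line Circuit U Viol toC scope Ins cnt H1 Covers Ker
  Err InR Bad cf tau)

namespace RSaux

/-- an assignment which is prescribed on `k` coordinates is one of at most `2 ^ (n - k)` -/
theorem cap_one {n k : ℕ} (f : Fin k → Fin n) (hf : Function.Injective f) (s : Fin k → Bool) :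
    (univ.filter fun x : Fin n → Bool => ∀ i, x (f i) = s i).card * 2 ^ k ≤ 2 ^ n := by
  classical
  have hkn : k ≤ n := by
    have := Fintype.card_le_of_injective f hf
    simpa using this
  have h1 : (univ.filter fun x : Fin n → Bool => ∀ i, x (f i) = s i).card ≤ 2 ^ (n - k) := by
    let R : Finset (Fin n) := univ.image f
    have hR : R.card = k := by
      rw [card_image_of_injective _ hf, card_univ, Fintype.card_fin]
    have hc : Fintype.card ({j : Fin n // j ∉ R} → Bool) = 2 ^ (n - k) := by
      rw [Fintype.card_fun, Fintype.card_bool, Fintype.card_subtype_compl, Fintype.card_fin]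
      simp [hR]
    rw [← hc, ← card_univ]
    apply card_le_card_of_injOn (fun (x : Fin n → Bool) (j : {j : Fin n // j ∉ R}) => x j.1)
      (fun _ _ => mem_coe.2 (mem_univ _))
    intro x hx y hy hxy
    have hx' := (mem_filter.1 (mem_coe.1 hx)).2
    have hy' := (mem_filter.1 (mem_coe.1 hy)).2
    funext j
    by_cases hj : j ∈ R
    · obtain ⟨i, _, hi⟩ := mem_image.1 hj
      rw [← hi, hx' i, hy' i]
    · exact congrFun hxy ⟨j, hj⟩
  calc _ ≤ 2 ^ (n - k) * 2 ^ k := Nat.mul_le_mul_right _ h1
    _ = 2 ^ n := by rw [← pow_add, Nat.sub_add_cancel hkn]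

/-- the signs for which the clause `c` of `T` has the number `(c.1, l c)` -/
def Sl {n k M μ : ℕ} (g : Fin M → Fin k → Fin n) (T : Finset (U M k)) (l : T → Fin μ)
    (σ : Signs n M μ) : Prop :=
  ∀ c : T, ∀ i, σ (c.1.1, l c) (g c.1.1 i) = !(c.1.2 i)

theorem one {n k M μ : ℕ} (g : Fin M → Fin k → Fin n) (hg : ∀ j, Function.Injective (g j))
    (T : Finset (U M k)) (l : T → Fin μ) [DecidablePred (Sl g T l)] :
    (univ.filter (Sl g T l)).card * (2 ^ k) ^ T.card ≤ Fintype.card (Signs n M μ) := by
  classical
  by_cases hne : ∃ σ : Signs n M μ, Sl g T l σ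
  · obtain ⟨σ, hσ⟩ := hne
    let J : T → Fin M × Fin μ := fun c => (c.1.1, l c)
    have hJ : Function.Injective J := by
      intro a b hab
      have h0 : (a.1.1, l a) = (b.1.1, l b) := hab
      have h1 : a.1.1 = b.1.1 := (Prod.mk.inj h0).1
      have h2 : l a = l b := (Prod.mk.inj h0).2
      apply Subtype.ext
      refine Prod.ext h1 ?_
      funext i
      have ha := hσ a i
      have hb := hσ b i
      rw [h1, h2] at ha
      have : (!(a.1.2 i)) = !(b.1.2 i) := ha.symm.trans hb
      exact Bool.not_inj this
    let A : Fin M × Fin μ → Finset (Fin n → Bool) := fun j =>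
      univ.filter fun y : Fin n → Bool => ∀ c : T, J c = j → ∀ i, y (g c.1.1 i) = !(c.1.2 i)
    have hpi : (univ.filter (Sl g T l)) = Fintype.piFinset A := by
      ext σ
      simp only [A, mem_filter, mem_univ, true_and, Fintype.mem_piFinset]
      refine ⟨fun h j c hc i => by rw [← hc]; exact h c i, fun h c i => h (J c) c rfl i⟩
    have hA : ∀ j ∈ (univ : Finset (Fin M × Fin μ)),
        (A j).card * (if j ∈ univ.image J then 2 ^ k else 1) ≤ 2 ^ n := by
      intro j _
      split_ifs with h
      · obtain ⟨c, -, hc⟩ := mem_image.1 h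
        refine le_trans (Nat.mul_le_mul_right _ (card_le_card ?_))
          (cap_one (g c.1.1) (hg _) (fun i => !(c.1.2 i)))
        intro y hy
        simp only [A, mem_filter, mem_univ, true_and] at hy ⊢
        exact hy c hc
      · rw [mul_one]
        refine (card_le_card (filter_subset _ _)).trans ?_
        simp
    have hprod := prod_le_prod' hA
    rw [prod_mul_distrib, prod_ite, prod_const_one, mul_one, prod_const, prod_const] at hprod
    have hc : (univ.filter fun j : Fin M × Fin μ => j ∈ univ.image J).card = T.card := by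
      have h2 : (univ.filter fun j : Fin M × Fin μ => j ∈ univ.image J) = univ.image J := by
        ext j; simp
      rw [h2, card_image_of_injective _ hJ]
      simp
    rw [hc] at hprod
    rw [hpi, Fintype.card_piFinset]
    refine hprod.trans (le_of_eq ?_)
    rw [Fintype.card_fun, Fintype.card_fun, Fintype.card_bool, Fintype.card_fin, card_univ]
  · have : (univ.filter (Sl g T l)) = ∅ := by
      ext σ
      simp only [mem_filter, mem_univ, true_and, notMem_empty, iff_false]
      exact fun h => hne ⟨σ, h⟩
    rw [this, card_empty, Nat.zero_mul]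
    exact Nat.zero_le _

end RSaux

open RSaux in
theorem pf_RS : T_RS := by
  classical
  intro n k M μ g hg T
  rw [Nat.card_eq_fintype_card, Fintype.card_subtype, Nat.card_eq_fintype_card]
  have hsub : (univ.filter fun σ : Signs n M μ => InR (FG g σ) T) ⊆
      (univ : Finset (T → Fin μ)).biUnion fun l => univ.filter (Sl g T l) := by
    intro σ hσ
    simp only [mem_filter, mem_univ, true_and] at hσ
    have h1 : ∀ c : T, ∃ l : Fin μ, ∀ i, σ (c.1.1, l) (g c.1.1 i) = !(c.1.2 i) := by
      intro c
      obtain ⟨m, hm⟩ := hσ c.1 c.2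
      have h2 : (idx m).1 = c.1.1 := congrArg Prod.fst hm
      have h3 : (fun i => !(σ (idx m) (g (idx m).1 i))) = c.1.2 := congrArg Prod.snd hm
      refine ⟨(idx m).2, fun i => ?_⟩
      rw [← h3, ← h2]
      simp
    choose l hl using h1
    simp only [mem_biUnion, mem_filter, mem_univ, true_and]
    exact ⟨l, hl⟩
  calc _ ≤ (∑ l : T → Fin μ, (univ.filter (Sl g T l)).card) * (2 ^ k) ^ T.card :=
        Nat.mul_le_mul_right _ ((card_le_card hsub).trans card_biUnion_le)
    _ = ∑ l : T → Fin μ, (univ.filter (Sl g T l)).card * (2 ^ k) ^ T.card := sum_mul ..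
    _ ≤ ∑ _l : T → Fin μ, Fintype.card (Signs n M μ) := sum_le_sum fun l _ => one g hg T l
    _ = μ ^ T.card * Fintype.card (Signs n M μ) := by
      rw [sum_const, card_univ, smul_eq_mul]
      simp

end Pool.Agent.H15.FLX
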